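import Pool.Agent.H74.CT.Defs

set_option autoImplicit false

/-!
Bridge between sets of pairs and simple graphs on `Fin n`.
-/

namespace Pool.Agent.H74.CT

open Finset

theorem gr_adj_lt {n : ℕ} (E : Finset (Pr n)) {i j : Fin n} (h : i < j) :
    (gr E).Adj i j ↔ (⟨(i, j), h⟩ : Pr n) ∈ E := by
  constructor
  · rintro (⟨_, h1⟩ | ⟨h2, _⟩)
    · exact h1
    · exact absurd h2 (not_lt.mpr h.le)
  · intro h1
    exact Or.inl ⟨h, h1⟩

theorem gr_mono {n : ℕ} {E E' : Finset (Pr n)} (h : E' ⊆ E) : gr E' ≤ gr E := by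
  intro i j hij
  rcases hij with ⟨h1, h2⟩ | ⟨h1, h2⟩
  · exact Or.inl ⟨h1, h h2⟩
  · exact Or.inr ⟨h1, h h2⟩

theorem gr_injective (n : ℕ) : Function.Injective (gr (n := n)) := by
  intro E E' h
  ext ⟨⟨i, j⟩, hij⟩
  rw [← gr_adj_lt E hij, ← gr_adj_lt E' hij, h]

theorem gr_surjective (n : ℕ) : Function.Surjective (gr (n := n)) := by
  classical
  intro G
  refine ⟨Finset.univ.filter (fun e : Pr n => G.Adj e.1.1 e.1.2), ?_⟩
  ext i j
  rcases lt_trichotomy i j with h | h | h
  · rw [gr_adj_lt _ h]; simp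
  · subst h; simp
  · rw [SimpleGraph.adj_comm, gr_adj_lt _ h, SimpleGraph.adj_comm]; simp

/-- sets of pairs and graphs -/
noncomputable def grEquiv (n : ℕ) : Finset (Pr n) ≃ SimpleGraph (Fin n) :=
  Equiv.ofBijective gr ⟨gr_injective n, gr_surjective n⟩

theorem edgeSet_gr {n : ℕ} (E : Finset (Pr n)) :
    (gr E).edgeSet = (fun e : Pr n => s(e.1.1, e.1.2)) '' (E : Set (Pr n)) := by
  ext x
  induction x using Sym2.ind with
  | _ i j =>
    rw [SimpleGraph.mem_edgeSet]
    simp only [Set.mem_image, Finset.mem_coe]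
    constructor
    · rintro (⟨h1, h2⟩ | ⟨h1, h2⟩)
      · exact ⟨_, h2, rfl⟩
      · exact ⟨_, h2, Sym2.eq_swap⟩
    · rintro ⟨⟨⟨a, b⟩, hab⟩, h1, h2⟩
      simp only [Sym2.eq_iff] at h2
      rcases h2 with ⟨rfl, rfl⟩ | ⟨rfl, rfl⟩
      · exact Or.inl ⟨hab, h1⟩
      · exact Or.inr ⟨hab, h1⟩

theorem pair_injective (n : ℕ) : Function.Injective (fun e : Pr n => s(e.1.1, e.1.2)) := by
  rintro ⟨⟨a, b⟩, hab⟩ ⟨⟨c, d⟩, hcd⟩ h
  simp only [Sym2.eq_iff] at h
  rcases h with ⟨rfl, rfl⟩ | ⟨rfl, rfl⟩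
  · rfl
  · exact absurd hab (not_lt.mpr (le_of_lt hcd))

theorem ncard_edgeSet_gr {n : ℕ} (E : Finset (Pr n)) : (gr E).edgeSet.ncard = E.card := by
  rw [edgeSet_gr, Set.ncard_image_of_injective _ (pair_injective n), Set.ncard_coe_finset]

theorem card_graphs_choose (n M : ℕ) :
    Nat.card {G : SimpleGraph (Fin n) // G.edgeSet.ncard = M} = (Fintype.card (Pr n)).choose M := by
  classical
  have e : {E : Finset (Pr n) // E.card = M} ≃ {G : SimpleGraph (Fin n) // G.edgeSet.ncard = M} :=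
    (grEquiv n).subtypeEquiv (fun E => by
      rw [show (grEquiv n) E = gr E from rfl, ncard_edgeSet_gr])
  rw [← Nat.card_congr e, Nat.card_eq_fintype_card, Fintype.card_finset_len]

theorem card_graphs_col (k n M : ℕ) :
    Nat.card {G : SimpleGraph (Fin n) // G.edgeSet.ncard = M ∧ G.Colorable k}
      = Nat.card {E : Finset (Pr n) // E.card = M ∧ (gr E).Colorable k} := by
  classical
  symm
  apply Nat.card_congr
  exact (grEquiv n).subtypeEquiv (fun E => by
      rw [show (grEquiv n) E = gr E from rfl, ncard_edgeSet_gr])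

/-- Br -/
theorem Pm_eq (k n M : ℕ) :
    Pm k n M = (Nat.card {G : SimpleGraph (Fin n) // G.edgeSet.ncard = M ∧ G.Colorable k} : ℝ)
      / (Nat.card {G : SimpleGraph (Fin n) // G.edgeSet.ncard = M} : ℝ) := by
  rw [card_graphs_choose, card_graphs_col]
  rfl

theorem card_Pr (n : ℕ) : Fintype.card (Pr n) = n.choose 2 := by
  classical
  have h : Fintype.card (Pr n) = Fintype.card {e : Sym2 (Fin n) // ¬ e.IsDiag} := by
    apply Fintype.card_of_bijective (f := fun e : Pr n =>
      (⟨s(e.1.1, e.1.2), by simpa using ne_of_lt e.2⟩ : {e : Sym2 (Fin n) // ¬ e.IsDiag}))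
    constructor
    · intro a b hab
      exact pair_injective n (by simpa using congrArg Subtype.val hab)
    · rintro ⟨x, hx⟩
      induction x using Sym2.ind with
      | _ i j =>
        rcases lt_trichotomy i j with h | h | h
        · exact ⟨⟨(i, j), h⟩, rfl⟩
        · subst h; simp at hx
        · exact ⟨⟨(j, i), h⟩, Subtype.ext Sym2.eq_swap⟩
  rw [h, Sym2.card_subtype_not_diag, Fintype.card_fin]

/-- colourability is kept when edges are removed -/
theorem colorable_dec {n : ℕ} (k : ℕ) (E E' : Finset (Pr n)) (h : E' ⊆ E)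
    (hE : (gr E).Colorable k) : (gr E').Colorable k := hE.mono_left (gr_mono h)

end Pool.Agent.H74.CT
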