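import Mathlib.Combinatorics.SetFamily.LYM
import Mathlib.RingTheory.Polynomial.Bernstein
import Mathlib.Tactic

/-!
Transfer between uniform random subsets of size `M` and binomial random subsets
of a finite set, for a property closed under taking subsets.
-/

namespace Pool.Agent.H30.KC

open Finset

open scoped Classical in
/-- The number of sets of size `M` with the property `P`. -/
noncomputable def cnt {α : Type*} [Fintype α] (P : Finset α → Prop) (M : ℕ) : ℕ :=
  ((Finset.univ : Finset (Finset α)).filter (fun s => s.card = M ∧ P s)).card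

/-- The proportion of sets with the property `P` among the sets of size `M`. -/
noncomputable def fr {α : Type*} [Fintype α] (P : Finset α → Prop) (M : ℕ) : ℝ :=
  (cnt P M : ℝ) / ((Fintype.card α).choose M : ℝ)

open scoped Classical in
/-- The probability of `P` for the binomial random set. -/
noncomputable def gp {α : Type*} [Fintype α] (P : Finset α → Prop) (p : ℝ) : ℝ :=
  ∑ s : Finset α, p ^ s.card * (1 - p) ^ (Fintype.card α - s.card) * (if P s then 1 else 0)

variable {α : Type*} [Fintype α]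

theorem fr_nonneg (P : Finset α → Prop) (M : ℕ) : 0 ≤ fr P M := by
  unfold fr; positivity

open scoped Classical in
theorem cnt_le (P : Finset α → Prop) (M : ℕ) : cnt P M ≤ (Fintype.card α).choose M := by
  unfold cnt
  rw [← Finset.card_univ (α := α), ← Finset.card_powersetCard]
  apply Finset.card_le_card
  intro s hs
  simp only [Finset.mem_filter, Finset.mem_univ, true_and] at hs
  simp [Finset.mem_powersetCard, hs.1]

theorem fr_le_one (P : Finset α → Prop) (M : ℕ) : fr P M ≤ 1 := by
  unfold fr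
  apply div_le_one_of_le₀ _ (by positivity)
  exact_mod_cast cnt_le P M

open scoped Classical in
theorem fr_anti (P : Finset α → Prop) (hP : ∀ s t : Finset α, s ⊆ t → P t → P s) :
    Antitone (fr P) := by
  apply antitone_nat_of_succ_le
  intro M
  have h := Finset.local_lubell_yamamoto_meshalkin_inequality_div (𝕜 := ℝ)
    (𝒜 := (Finset.univ : Finset (Finset α)).filter (fun s => s.card = M + 1 ∧ P s))
    (r := M + 1) (by omega) (by
      intro s hs
      simp at hs
      exact hs.1)
  unfold fr
  refine le_trans ?_ (le_trans h ?_)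
  · apply le_of_eq; unfold cnt; congr
  · simp only [Nat.add_sub_cancel]
    apply div_le_div_of_nonneg_right _ (by positivity)
    norm_cast
    unfold cnt
    apply Finset.card_le_card
    intro s hs
    rw [Finset.mem_shadow_iff] at hs
    obtain ⟨t, ht, a, ha, rfl⟩ := hs
    simp only [Finset.mem_filter, Finset.mem_univ, true_and] at ht ⊢
    refine ⟨?_, hP _ _ (Finset.erase_subset _ _) ht.2⟩
    rw [Finset.card_erase_of_mem ha, ht.1]; rfl

/-- The binomial weight. -/
noncomputable def bw (N : ℕ) (p : ℝ) (M : ℕ) : ℝ := (N.choose M : ℝ) * p ^ M * (1 - p) ^ (N - M)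

theorem bw_nonneg {N : ℕ} {p : ℝ} (h0 : 0 ≤ p) (h1 : p ≤ 1) (M : ℕ) : 0 ≤ bw N p M := by
  unfold bw
  have : 0 ≤ 1 - p := by linarith
  positivity

theorem bw_eval (N : ℕ) (p : ℝ) (M : ℕ) : (bernsteinPolynomial ℝ N M).eval p = bw N p M := by
  simp [bernsteinPolynomial, bw]

theorem bw_sum (N : ℕ) (p : ℝ) : ∑ M ∈ range (N + 1), bw N p M = 1 := by
  have h := congrArg (Polynomial.eval p) (bernsteinPolynomial.sum ℝ N)
  rw [Polynomial.eval_finsetSum] at h
  simpa [bw_eval] using h

theorem bw_var (N : ℕ) (p : ℝ) :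
    ∑ M ∈ range (N + 1), ((N : ℝ) * p - M) ^ 2 * bw N p M = N * p * (1 - p) := by
  have h := congrArg (Polynomial.eval p) (bernsteinPolynomial.variance (R := ℝ) N)
  rw [Polynomial.eval_finsetSum] at h
  simp only [Polynomial.eval_mul, Polynomial.eval_pow, Polynomial.eval_sub, bw_eval,
    Polynomial.eval_X, Polynomial.eval_natCast, Polynomial.eval_one,
    nsmul_eq_mul] at h
  exact h

open scoped Classical in
theorem gp_eq (P : Finset α → Prop) (p : ℝ) :
    gp P p = ∑ M ∈ range (Fintype.card α + 1), bw (Fintype.card α) p M * fr P M := by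
  unfold gp
  rw [← Finset.sum_fiberwise_of_maps_to (s := (Finset.univ : Finset (Finset α)))
    (t := range (Fintype.card α + 1)) (g := fun s => s.card)
    (fun s _ => by rw [Finset.mem_range]; exact Nat.lt_succ_of_le (Finset.card_le_univ s))]
  apply Finset.sum_congr rfl
  intro M hM
  rw [Finset.mem_range, Nat.lt_succ_iff] at hM
  have hc : (0 : ℝ) < ((Fintype.card α).choose M : ℝ) := by exact_mod_cast Nat.choose_pos hM
  have h1 : bw (Fintype.card α) p M * fr P M
      = p ^ M * (1 - p) ^ (Fintype.card α - M) * (cnt P M : ℝ) := by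
    unfold bw fr
    field_simp
  rw [h1]
  unfold cnt
  rw [Finset.card_filter, Nat.cast_sum, Finset.mul_sum, Finset.sum_filter]
  apply Finset.sum_congr rfl
  intro s _
  by_cases hs : s.card = M
  · subst hs; by_cases hp : P s <;> simp [hp]
  · simp [hs]

theorem tail_up {N : ℕ} {p : ℝ} (h0 : 0 ≤ p) (h1 : p ≤ 1) {M₀ : ℕ} (h : (N : ℝ) * p < M₀) :
    1 - N * p / (M₀ - N * p) ^ 2 ≤ ∑ M ∈ (range (N + 1)).filter (fun M => M ≤ M₀), bw N p M := by
  have hs := bw_sum N p
  have hv := bw_var N p
  rw [← Finset.sum_filter_add_sum_filter_not (range (N + 1)) (fun M => M ≤ M₀)] at hs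
  have hd : (0 : ℝ) < (M₀ - N * p) ^ 2 := by
    have : (0 : ℝ) < M₀ - N * p := by linarith
    positivity
  have h2 : (M₀ - N * p) ^ 2 * ∑ M ∈ (range (N + 1)).filter (fun M => ¬ M ≤ M₀), bw N p M
      ≤ N * p := by
    calc (M₀ - N * p) ^ 2 * ∑ M ∈ (range (N + 1)).filter (fun M => ¬ M ≤ M₀), bw N p M
        = ∑ M ∈ (range (N + 1)).filter (fun M => ¬ M ≤ M₀), (M₀ - N * p) ^ 2 * bw N p M := by
          rw [Finset.mul_sum]
      _ ≤ ∑ M ∈ (range (N + 1)).filter (fun M => ¬ M ≤ M₀), ((N : ℝ) * p - M) ^ 2 * bw N p M := by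
          apply Finset.sum_le_sum
          intro M hM
          simp only [Finset.mem_filter, not_le] at hM
          apply mul_le_mul_of_nonneg_right _ (bw_nonneg h0 h1 M)
          have : (M₀ : ℝ) < M := by exact_mod_cast hM.2
          nlinarith
      _ ≤ ∑ M ∈ range (N + 1), ((N : ℝ) * p - M) ^ 2 * bw N p M := by
          apply Finset.sum_le_sum_of_subset_of_nonneg (Finset.filter_subset _ _)
          intro M _ _
          exact mul_nonneg (sq_nonneg _) (bw_nonneg h0 h1 M)
      _ = N * p * (1 - p) := hv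
      _ ≤ N * p := by
          have : (0 : ℝ) ≤ N * p := by positivity
          nlinarith
  have h3 : ∑ M ∈ (range (N + 1)).filter (fun M => ¬ M ≤ M₀), bw N p M
      ≤ N * p / (M₀ - N * p) ^ 2 := by
    rw [le_div_iff₀ hd]; linarith
  linarith

theorem tail_down {N : ℕ} {p : ℝ} (h0 : 0 ≤ p) (h1 : p ≤ 1) {M₀ : ℕ} (h : (M₀ : ℝ) < N * p) :
    ∑ M ∈ (range (N + 1)).filter (fun M => ¬ M₀ ≤ M), bw N p M ≤ N * p / (N * p - M₀) ^ 2 := by
  have hv := bw_var N p
  have hd : (0 : ℝ) < (N * p - M₀) ^ 2 := by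
    have : (0 : ℝ) < N * p - M₀ := by linarith
    positivity
  rw [le_div_iff₀ hd]
  calc (∑ M ∈ (range (N + 1)).filter (fun M => ¬ M₀ ≤ M), bw N p M) * (N * p - M₀) ^ 2
      = ∑ M ∈ (range (N + 1)).filter (fun M => ¬ M₀ ≤ M), (N * p - M₀) ^ 2 * bw N p M := by
        rw [mul_comm, Finset.mul_sum]
    _ ≤ ∑ M ∈ (range (N + 1)).filter (fun M => ¬ M₀ ≤ M), ((N : ℝ) * p - M) ^ 2 * bw N p M := by
        apply Finset.sum_le_sum
        intro M hM
        simp only [Finset.mem_filter, not_le] at hM
        apply mul_le_mul_of_nonneg_right _ (bw_nonneg h0 h1 M)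
        have : (M : ℝ) < M₀ := by exact_mod_cast hM.2
        nlinarith
    _ ≤ ∑ M ∈ range (N + 1), ((N : ℝ) * p - M) ^ 2 * bw N p M := by
        apply Finset.sum_le_sum_of_subset_of_nonneg (Finset.filter_subset _ _)
        intro M _ _
        exact mul_nonneg (sq_nonneg _) (bw_nonneg h0 h1 M)
    _ = N * p * (1 - p) := hv
    _ ≤ N * p := by
        have : (0 : ℝ) ≤ N * p := by positivity
        nlinarith

theorem gp_ge (P : Finset α → Prop) (hP : ∀ s t : Finset α, s ⊆ t → P t → P s)
    {p : ℝ} (h0 : 0 ≤ p) (h1 : p ≤ 1) {M₀ : ℕ} (h : (Fintype.card α : ℝ) * p < M₀) :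
    (1 - Fintype.card α * p / (M₀ - Fintype.card α * p) ^ 2) * fr P M₀ ≤ gp P p := by
  rw [gp_eq]
  calc (1 - Fintype.card α * p / (M₀ - Fintype.card α * p) ^ 2) * fr P M₀
      ≤ (∑ M ∈ (range (Fintype.card α + 1)).filter (fun M => M ≤ M₀),
          bw (Fintype.card α) p M) * fr P M₀ :=
        mul_le_mul_of_nonneg_right (tail_up h0 h1 h) (fr_nonneg P M₀)
    _ = ∑ M ∈ (range (Fintype.card α + 1)).filter (fun M => M ≤ M₀),
          bw (Fintype.card α) p M * fr P M₀ := by rw [Finset.sum_mul]
    _ ≤ ∑ M ∈ (range (Fintype.card α + 1)).filter (fun M => M ≤ M₀),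
          bw (Fintype.card α) p M * fr P M := by
        apply Finset.sum_le_sum
        intro M hM
        simp only [Finset.mem_filter] at hM
        exact mul_le_mul_of_nonneg_left (fr_anti P hP hM.2) (bw_nonneg h0 h1 M)
    _ ≤ _ := by
        apply Finset.sum_le_sum_of_subset_of_nonneg (Finset.filter_subset _ _)
        intro M _ _
        exact mul_nonneg (bw_nonneg h0 h1 M) (fr_nonneg P M)

theorem gp_le (P : Finset α → Prop) (hP : ∀ s t : Finset α, s ⊆ t → P t → P s)
    {p : ℝ} (h0 : 0 ≤ p) (h1 : p ≤ 1) {M₀ : ℕ} (h : (M₀ : ℝ) < (Fintype.card α : ℝ) * p) :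
    gp P p ≤ fr P M₀ + Fintype.card α * p / (Fintype.card α * p - M₀) ^ 2 := by
  rw [gp_eq, ← Finset.sum_filter_add_sum_filter_not (range (Fintype.card α + 1))
    (fun M => M₀ ≤ M)]
  apply add_le_add
  · calc ∑ M ∈ (range (Fintype.card α + 1)).filter (fun M => M₀ ≤ M),
          bw (Fintype.card α) p M * fr P M
        ≤ ∑ M ∈ (range (Fintype.card α + 1)).filter (fun M => M₀ ≤ M),
          bw (Fintype.card α) p M * fr P M₀ := by
          apply Finset.sum_le_sum
          intro M hM
          simp only [Finset.mem_filter] at hM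
          exact mul_le_mul_of_nonneg_left (fr_anti P hP hM.2) (bw_nonneg h0 h1 M)
      _ = (∑ M ∈ (range (Fintype.card α + 1)).filter (fun M => M₀ ≤ M),
          bw (Fintype.card α) p M) * fr P M₀ := by rw [Finset.sum_mul]
      _ ≤ 1 * fr P M₀ := by
          apply mul_le_mul_of_nonneg_right _ (fr_nonneg P M₀)
          rw [← bw_sum (Fintype.card α) p]
          apply Finset.sum_le_sum_of_subset_of_nonneg (Finset.filter_subset _ _)
          intro M _ _
          exact bw_nonneg h0 h1 M
      _ = fr P M₀ := one_mul _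
  · refine le_trans ?_ (tail_down h0 h1 h)
    apply Finset.sum_le_sum
    intro M _
    calc bw (Fintype.card α) p M * fr P M ≤ bw (Fintype.card α) p M * 1 :=
          mul_le_mul_of_nonneg_left (fr_le_one P M) (bw_nonneg h0 h1 M)
      _ = _ := mul_one _

end Pool.Agent.H30.KC
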