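import Pool.Agent.H74.CT.Defs
import Pool.Agent.H30.KC.Tr

set_option autoImplicit false

/-!
Modules Lym, Bin, Mix of `[H74 CT]`: the transfer in the terms of `H74.CT.Defs`.
-/

namespace Pool.Agent.H74.CT

open Finset Pool.Agent.H30.KC

variable {α : Type} [Fintype α]

theorem ratio_eq_fr (A : Finset α → Prop) (M : ℕ) : ratio A M = fr A M := by
  classical
  unfold ratio fr cnt
  congr 2
  rw [Nat.card_eq_fintype_card, Fintype.card_subtype]

theorem ex_ind_eq_gp (A : Finset α → Prop) (p : ℝ) : ex α p (fun E => ind (A E)) = gp A p := by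
  unfold ex gp ind
  rfl

theorem ratio_nonneg (A : Finset α → Prop) (M : ℕ) : 0 ≤ ratio A M := by
  rw [ratio_eq_fr]; exact fr_nonneg A M

theorem ratio_le_one (A : Finset α → Prop) (M : ℕ) : ratio A M ≤ 1 := by
  rw [ratio_eq_fr]; exact fr_le_one A M

/-- Lym -/
theorem ratio_anti (A : Finset α → Prop) (hA : ∀ E E' : Finset α, E' ⊆ E → A E → A E')
    {M M' : ℕ} (h : M ≤ M') : ratio A M' ≤ ratio A M := by
  rw [ratio_eq_fr, ratio_eq_fr]
  exact fr_anti A (fun s t hst ht => hA t s hst ht) h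

/-- Mix (a) -/
theorem mix_lower (A : Finset α → Prop) (hA : ∀ E E' : Finset α, E' ⊆ E → A E → A E')
    {p t : ℝ} (h0 : 0 ≤ p) (h1 : p ≤ 1) (ht : 0 < t) {M₀ : ℕ}
    (h : (Fintype.card α : ℝ) * p + t ≤ M₀) :
    (1 - Fintype.card α * p / t ^ 2) * ratio A M₀ ≤ ex α p (fun E => ind (A E)) := by
  rw [ratio_eq_fr, ex_ind_eq_gp]
  refine le_trans ?_ (gp_ge A (fun s t hst ht => hA t s hst ht) h0 h1 (M₀ := M₀) (by linarith))
  apply mul_le_mul_of_nonneg_right _ (fr_nonneg A M₀)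
  have h2 : (Fintype.card α * p / ((M₀ : ℝ) - Fintype.card α * p) ^ 2)
      ≤ Fintype.card α * p / t ^ 2 := by
    apply div_le_div_of_nonneg_left (by positivity) (by positivity)
    have : t ≤ (M₀ : ℝ) - Fintype.card α * p := by linarith
    nlinarith
  linarith

/-- Mix (b) -/
theorem mix_upper (A : Finset α → Prop) (hA : ∀ E E' : Finset α, E' ⊆ E → A E → A E')
    {p t : ℝ} (h0 : 0 ≤ p) (h1 : p ≤ 1) (ht : 0 < t) {M₀ : ℕ}
    (h : (M₀ : ℝ) + t ≤ (Fintype.card α : ℝ) * p) :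
    ex α p (fun E => ind (A E)) ≤ ratio A M₀ + Fintype.card α * p / t ^ 2 := by
  rw [ratio_eq_fr, ex_ind_eq_gp]
  refine le_trans (gp_le A (fun s t hst ht => hA t s hst ht) h0 h1 (M₀ := M₀) (by linarith)) ?_
  have h2 : (Fintype.card α * p / (Fintype.card α * p - (M₀ : ℝ)) ^ 2)
      ≤ Fintype.card α * p / t ^ 2 := by
    apply div_le_div_of_nonneg_left (by positivity) (by positivity)
    have : t ≤ Fintype.card α * p - (M₀ : ℝ) := by linarith
    nlinarith
  linarith

end Pool.Agent.H74.CT
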