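import Pool.Agent.H74.CT.Defs

set_option autoImplicit false

/-!
Expectation of a random subset of a disjoint union.
-/

namespace Pool.Agent.H74.CT

open Finset

theorem card_join {α β γ : Type} (e : β ⊕ γ ≃ α) (B : Finset β) (C : Finset γ) :
    (join e B C).card = B.card + C.card := by
  simp [join, Finset.card_disjSum]

/-- the bijection given by `join` -/
noncomputable def joinEquiv {α β γ : Type} (e : β ⊕ γ ≃ α) : Finset β × Finset γ ≃ Finset α :=
  (Finset.sumEquiv (α := β) (β := γ)).symm.toEquiv.trans e.finsetCongr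

theorem joinEquiv_apply {α β γ : Type} (e : β ⊕ γ ≃ α) (B : Finset β) (C : Finset γ) :
    joinEquiv e (B, C) = join e B C := rfl

theorem ex_split {α β γ : Type} [Fintype α] [Fintype β] [Fintype γ] (e : β ⊕ γ ≃ α) (p : ℝ)
    (f : Finset α → ℝ) :
    ex α p f = ex β p (fun B => ex γ p (fun C => f (join e B C))) := by
  unfold ex
  rw [← Equiv.sum_comp (joinEquiv e), Fintype.sum_prod_type]
  apply Finset.sum_congr rfl
  intro B _
  rw [Finset.mul_sum]
  apply Finset.sum_congr rfl
  intro C _
  rw [joinEquiv_apply, card_join]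
  have hα : Fintype.card α = Fintype.card β + Fintype.card γ := by
    rw [← Fintype.card_congr e, Fintype.card_sum]
  have hB : B.card ≤ Fintype.card β := Finset.card_le_univ B
  have hC : C.card ≤ Fintype.card γ := Finset.card_le_univ C
  rw [hα, show Fintype.card β + Fintype.card γ - (B.card + C.card)
    = (Fintype.card β - B.card) + (Fintype.card γ - C.card) by omega, pow_add, pow_add]
  ring

theorem ex_congr_equiv {α β : Type} [Fintype α] [Fintype β] (e : β ≃ α) (p : ℝ)
    (f : Finset α → ℝ) :
    ex α p f = ex β p (fun B => f (B.map e.toEmbedding)) := by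
  unfold ex
  rw [← Equiv.sum_comp e.finsetCongr, Fintype.card_congr e]
  apply Finset.sum_congr rfl
  intro B _
  simp [Equiv.finsetCongr_apply]

theorem ex_const {α : Type} [Fintype α] (p c : ℝ) : ex α p (fun _ => c) = c := by
  unfold ex
  rw [← Finset.sum_mul, ← Finset.powerset_univ, ← Finset.card_univ]
  rw [Finset.sum_pow_mul_eq_add_pow]
  simp

theorem ex_mono {α : Type} [Fintype α] {p : ℝ} (h0 : 0 ≤ p) (h1 : p ≤ 1)
    {f g : Finset α → ℝ} (h : ∀ E, f E ≤ g E) : ex α p f ≤ ex α p g := by
  unfold ex
  apply Finset.sum_le_sum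
  intro E _
  have : 0 ≤ 1 - p := by linarith
  exact mul_le_mul_of_nonneg_left (h E) (by positivity)

theorem ex_mul_const {α : Type} [Fintype α] (p c : ℝ) (f : Finset α → ℝ) :
    ex α p (fun E => f E * c) = ex α p f * c := by
  unfold ex
  rw [Finset.sum_mul]
  apply Finset.sum_congr rfl
  intro E _
  ring

theorem ex_add {α : Type} [Fintype α] (p : ℝ) (f g : Finset α → ℝ) :
    ex α p (fun E => f E + g E) = ex α p f + ex α p g := by
  unfold ex
  rw [← Finset.sum_add_distrib]
  apply Finset.sum_congr rfl
  intro E _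
  ring

/-- A function of the first part only. -/
theorem ex_split_left {α β γ : Type} [Fintype α] [Fintype β] [Fintype γ] (e : β ⊕ γ ≃ α)
    (p : ℝ) (f : Finset α → ℝ) (g : Finset β → ℝ) (h : ∀ B C, f (join e B C) = g B) :
    ex α p f = ex β p g := by
  rw [ex_split e]
  congr 1
  funext B
  rw [show (fun C => f (join e B C)) = fun _ => g B from funext fun C => h B C]
  exact ex_const p (g B)

end Pool.Agent.H74.CT
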