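import Pool.Agent.H74.CT.Fr
import Pool.Agent.H30.KC.Mix
import Pool.Agent.H30.KC.Br
import Pool.Agent.H30.KC.Split

set_option autoImplicit false

/-!
The modules `Tra` and `Prd` of `[H74 CT]`.
-/

namespace Pool.Agent.H74.CT

theorem frac_eq_ratio (k n M : ℕ) :
    frac k n M = ratio (fun E : Finset (Pr n) => (gr E).Colorable k) M := by
  have h := Pm_eq k n M
  unfold frac
  rw [← h]
  rfl

theorem frac_nonneg (k n M : ℕ) : 0 ≤ frac k n M := by
  rw [frac_eq_ratio]; exact ratio_nonneg _ _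

theorem frac_le_one (k n M : ℕ) : frac k n M ≤ 1 := by
  rw [frac_eq_ratio]; exact ratio_le_one _ _

/-- fewer edges: more often colourable -/
theorem frac_anti (k n : ℕ) {M M' : ℕ} (h : M ≤ M') : frac k n M' ≤ frac k n M := by
  rw [frac_eq_ratio, frac_eq_ratio]
  exact ratio_anti _ (colorable_dec k) h

/-- `Tra` -/
theorem tra : TraStmt := by
  intro k n M p t h0 h1 ht
  rw [frac_eq_ratio, ← card_Pr n]
  exact ⟨fun h => mix_lower _ (colorable_dec k) h0 h1 ht h,
    fun h => mix_upper _ (colorable_dec k) h0 h1 ht h⟩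

/-- `Prd` -/
theorem prd30 : PrdStmt := by
  intro α β γ _ _ _ e p F
  exact ex_split e p F

end Pool.Agent.H74.CT
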